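import Pool.Agent.Helper66.PD.Deg

/-!
# Posets of large dimension with cover graph of maximum degree 4 and path-width `2 * k + 1`

Two rails on each level: `L j` (to the left) and `H j` (to the right, with everything from outside
the superblock); broadcasters `Z j`, above all `X` outside their block; `Z 0` are the elements `Y`.
-/

set_option autoImplicit false

namespace Pool.Agent.Helper23.NS

open Pool.Agent.Helper66.PD (cov HeightLE PathWidthLE DimLE DegreeLE)

/-- elements: pairs `X a`, `Z 0 a`; rails `L j B`, `H j B`; broadcasters `Z j B`; the block of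
level `j` of the address `a` is `a / n ^ j` -/
inductive V : Type
  | X (a : ℕ) : V
  | Z (j B : ℕ) : V
  | L (j B : ℕ) : V
  | H (j B : ℕ) : V

namespace V

/-- admissible elements -/
def ok (k n : ℕ) : V → Prop
  | X a => a < n ^ k
  | Z j B => j < k ∧ B < n ^ (k - j)
  | L j B => j < k ∧ B < n ^ (k - j)
  | H j B => j < k ∧ B < n ^ (k - j)

/-- the edges -/
inductive E (n : ℕ) : V → V → Prop
  | xl (a : ℕ) : E n (X a) (L 0 a)
  | xh (a : ℕ) : E n (X a) (H 0 a)
  | ll (j B : ℕ) (hB : (B + 1) / n = B / n) : E n (L j (B + 1)) (L j B)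
  | lz (j B : ℕ) (hB : (B + 1) / n = B / n) : E n (L j (B + 1)) (Z j B)
  | lu (j B : ℕ) (hB : B % n = 0) : E n (L j B) (L (j + 1) (B / n))
  | lh (j B : ℕ) (hB : B % n = 0) : E n (L j B) (H (j + 1) (B / n))
  | hh (j B : ℕ) (hB : (B + 1) / n = B / n) : E n (H j B) (H j (B + 1))
  | hz (j B : ℕ) (hB : (B + 1) / n = B / n) : E n (H j B) (Z j (B + 1))
  | zz (j B : ℕ) (hB : B % n = 0) : E n (Z (j + 1) (B / n)) (Z j B)
  | zh (j B : ℕ) (hB : B % n = 0) : E n (Z (j + 1) (B / n)) (H j B)

/-- edges between admissible elements -/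
def EE (k n : ℕ) (u v : V) : Prop := E n u v ∧ ok k n u ∧ ok k n v

/-- the rank -/
def rk (k n : ℕ) : V → ℕ
  | X _ => 0
  | L j B => 1 + j * n + (n - 1 - B % n)
  | H j B => 1 + (2 * k - 2 - j) * n + B % n
  | Z j _ => (2 * k - 1 - j) * n

theorem mod_succ {n B : ℕ} (h : (B + 1) / n = B / n) : (B + 1) % n = B % n + 1 := by
  have h1 := Nat.div_add_mod (B + 1) n
  have h2 := Nat.div_add_mod B n
  rw [h] at h1
  omega

theorem n_pos {k n j B : ℕ} (h : j < k ∧ B < n ^ (k - j)) : 0 < n := by
  rcases Nat.eq_zero_or_pos n with h0 | h0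
  · exfalso
    subst h0
    obtain ⟨h4, h5⟩ := h
    rw [Nat.zero_pow (by omega)] at h5
    omega
  · exact h0

theorem rk_EE {k n : ℕ} (u v : V) (h : EE k n u v) : rk k n u < rk k n v := by
  obtain ⟨hE, hu, hv⟩ := h
  cases hE with
  | xl a => simp only [rk]; omega
  | xh a => simp only [rk]; omega
  | ll j B hB =>
    have hn := n_pos hu
    have h1 := mod_succ hB
    have h2 := Nat.mod_lt (B + 1) hn
    simp only [rk]
    omega
  | lz j B hB =>
    have hn := n_pos hu
    have hj := hu.1
    have h1 := mod_succ hB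
    have h2 := Nat.mod_lt (B + 1) hn
    have h3 : (j + 1) * n ≤ (2 * k - 1 - j) * n := Nat.mul_le_mul_right n (by omega)
    have h4 : (j + 1) * n = j * n + n := by ring
    simp only [rk]
    omega
  | lu j B hB =>
    have hn := n_pos hu
    have h3 : (j + 1) * n = j * n + n := by ring
    simp only [rk]
    rw [h3]
    omega
  | lh j B hB =>
    have hn := n_pos hu
    have hj := hv.1
    have h3 : (j + 1) * n ≤ (2 * k - 2 - (j + 1)) * n := Nat.mul_le_mul_right n (by omega)
    have h4 : (j + 1) * n = j * n + n := by ring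
    simp only [rk]
    omega
  | hh j B hB =>
    have h1 := mod_succ hB
    simp only [rk]
    omega
  | hz j B hB =>
    have hn := n_pos hu
    have hj := hu.1
    have h1 := mod_succ hB
    have h2 := Nat.mod_lt (B + 1) hn
    have h3 : (2 * k - 1 - j) * n = (2 * k - 2 - j) * n + n := by
      rw [show 2 * k - 1 - j = (2 * k - 2 - j) + 1 by omega]; ring
    simp only [rk]
    rw [h3]
    omega
  | zz j B hB =>
    have hn := n_pos hu
    have hj := hu.1
    have h3 : (2 * k - 1 - j) * n = (2 * k - 1 - (j + 1)) * n + n := by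
      rw [show 2 * k - 1 - j = (2 * k - 1 - (j + 1)) + 1 by omega]; ring
    simp only [rk]
    omega
  | zh j B hB =>
    have hj := hu.1
    have h3 : (2 * k - 1 - (j + 1)) * n = (2 * k - 2 - j) * n := by
      rw [show 2 * k - 1 - (j + 1) = 2 * k - 2 - j by omega]
    simp only [rk]
    rw [h3]
    omega

theorem rk_le {k n : ℕ} (u v : V) (h : Relation.ReflTransGen (EE k n) u v) :
    rk k n u ≤ rk k n v := by
  induction h with
  | refl => exact le_rfl
  | tail _ h ih => exact ih.trans (rk_EE _ _ h).le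

theorem rk_lt {k n : ℕ} (u v : V) (h : Relation.ReflTransGen (EE k n) u v) (hne : u ≠ v) :
    rk k n u < rk k n v := by
  rcases Relation.ReflTransGen.cases_tail h with h1 | ⟨w, h1, h2⟩
  · exact absurd h1.symm hne
  · exact lt_of_le_of_lt (rk_le _ _ h1) (rk_EE _ _ h2)

theorem rk_top {k n : ℕ} (hk : 1 ≤ k) (u : V) (h : ok k n u) :
    rk k n u < (2 * k - 1) * n + 1 := by
  cases u with
  | X a => simp only [rk]; omega
  | Z j B =>
    have hj := h.1
    have h5 : (2 * k - 1 - j) * n ≤ (2 * k - 1) * n := Nat.mul_le_mul_right n (by omega)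
    simp only [rk]
    omega
  | L j B =>
    have hn := n_pos h
    have hj := h.1
    have h3 : (j + 1) * n ≤ (2 * k - 1) * n := Nat.mul_le_mul_right n (by omega)
    have h4 : (j + 1) * n = j * n + n := by ring
    simp only [rk]
    omega
  | H j B =>
    have hn := n_pos h
    have h2 := Nat.mod_lt B hn
    have hj := h.1
    have h5 : (2 * k - 2 - j) * n ≤ (2 * k - 2) * n := Nat.mul_le_mul_right n (by omega)
    have h4 : (2 * k - 1) * n = (2 * k - 2) * n + n := by
      rw [show 2 * k - 1 = (2 * k - 2) + 1 by omega]; ring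
    simp only [rk]
    omega

end V

/-- the poset -/
def Kel (k n : ℕ) : Type := {u : V // V.ok k n u}

namespace Kel

open V

variable {k n : ℕ}

instance instPO : PartialOrder (Kel k n) where
  le u v := Relation.ReflTransGen (EE k n) u.1 v.1
  le_refl u := Relation.ReflTransGen.refl
  le_trans u v w h1 h2 := Relation.ReflTransGen.trans h1 h2
  le_antisymm u v h1 h2 := by
    by_contra hne
    have hne' : u.1 ≠ v.1 := fun h => hne (Subtype.ext h)
    have a1 := V.rk_lt u.1 v.1 h1 hne'
    have a2 := V.rk_lt v.1 u.1 h2 (Ne.symm hne')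
    omega

theorem le_def (u v : Kel k n) : u ≤ v ↔ Relation.ReflTransGen (EE k n) u.1 v.1 := Iff.rfl

/-- covers are edges -/
theorem cov_EE (u v : Kel k n) (h : u ⋖ v) : EE k n u.1 v.1 := by
  rcases Relation.ReflTransGen.cases_tail ((le_def _ _).1 h.le) with h1 | ⟨w, h1, h2⟩
  · exact absurd (Subtype.ext h1.symm) h.ne
  · by_cases h3 : u.1 = w
    · rw [h3]; exact h2
    · exfalso
      have h4 : w ≠ v.1 := by
        intro h5
        have := rk_EE _ _ h2
        rw [h5] at this
        exact lt_irrefl _ this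
      have h5 : ∃ w' : Kel k n, w'.1 = w := ⟨⟨w, h2.2.1⟩, rfl⟩
      obtain ⟨w', rfl⟩ := h5
      have h6 : u ≤ w' := h1
      have h7 : w' ≤ v := Relation.ReflTransGen.single h2
      exact h.2 (lt_of_le_of_ne h6 fun h => h3 (congrArg Subtype.val h))
        (lt_of_le_of_ne h7 fun h => h4 (congrArg Subtype.val h))

theorem adj_EE (u v : Kel k n) (h : (cov (Kel k n)).Adj u v) :
    EE k n u.1 v.1 ∨ EE k n v.1 u.1 := by
  unfold cov at h
  rw [SimpleGraph.fromRel_adj] at h
  exact h.2.imp (cov_EE _ _) (cov_EE _ _)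

theorem height (hk : 1 ≤ k) : HeightLE (Kel k n) ((2 * k - 1) * n + 1) := by
  intro s hs
  have h1 : s.card ≤ (Finset.range ((2 * k - 1) * n + 1)).card := by
    apply Finset.card_le_card_of_injOn (fun u : Kel k n => rk k n u.1)
    · intro u _
      exact Finset.mem_coe.2 (Finset.mem_range.2 (rk_top hk u.1 u.2))
    · intro u hu v hv huv
      by_contra hne
      have hne' : u.1 ≠ v.1 := fun h => hne (Subtype.ext h)
      have huv' : rk k n u.1 = rk k n v.1 := huv
      rcases hs hu hv hne with h2 | h2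
      · have := V.rk_lt u.1 v.1 h2 hne'
        omega
      · have := V.rk_lt v.1 u.1 h2 (Ne.symm hne')
        omega
  rwa [Finset.card_range] at h1

/-! ### finiteness -/

/-- code -/
def code : V → Fin 4 × ℕ × ℕ
  | X a => (0, 0, a)
  | Z j B => (1, j, B)
  | L j B => (2, j, B)
  | H j B => (3, j, B)

theorem code_inj : Function.Injective code := by
  intro u v h
  cases u <;> cases v <;> simp_all [code]

theorem pow_le (i : ℕ) (hn : 0 < n) : n ^ (k - i) ≤ n ^ k := Nat.pow_le_pow_right hn (Nat.sub_le _ _)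

instance instFin : Finite (Kel k n) := by
  have h1 : ∀ u : Kel k n, (code u.1).2.1 < k + 1 ∧ (code u.1).2.2 < n ^ k + 1 := by
    rintro ⟨u, hu⟩
    cases u with
    | X a =>
      have h : a < n ^ k := hu
      simp only [code]; omega
    | Z j B =>
      have hn := n_pos hu
      have h2 := pow_le (k := k) j hn
      obtain ⟨h4, h5⟩ := hu
      simp only [code]; omega
    | L j B =>
      have hn := n_pos hu
      have h2 := pow_le (k := k) j hn
      obtain ⟨h4, h5⟩ := hu
      simp only [code]; omega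
    | H j B =>
      have hn := n_pos hu
      have h2 := pow_le (k := k) j hn
      obtain ⟨h4, h5⟩ := hu
      simp only [code]; omega
  refine Finite.of_injective (β := Fin 4 × Fin (k + 1) × Fin (n ^ k + 1))
    (fun u : Kel k n => ((code u.1).1, ⟨_, (h1 u).1⟩, ⟨_, (h1 u).2⟩)) ?_
  intro u v huv
  simp only [Prod.mk.injEq, Fin.mk.injEq] at huv
  obtain ⟨e1, e2, e3⟩ := huv
  exact Subtype.ext (code_inj (Prod.ext e1 (Prod.ext e2 e3)))

noncomputable instance instFT : Fintype (Kel k n) := Fintype.ofFinite _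

/-! ### the order between the pairs -/

/-- an up-set which contains `X a` and not `Z 0 a` -/
def Up (n a : ℕ) : V → Prop
  | X b => b = a
  | Z j B => a / n ^ j ≠ B
  | L j B => a / n ^ (j + 1) = B / n ∧ B ≤ a / n ^ j
  | H j B => ¬ (a / n ^ (j + 1) = B / n ∧ B < a / n ^ j)

theorem div_pow_succ (a j : ℕ) : a / n ^ (j + 1) = a / n ^ j / n := by
  rw [pow_succ, Nat.div_div_eq_div_mul]

theorem up_E (a : ℕ) (u v : V) (h : E n u v) (hu : Up n a u) : Up n a v := by
  cases h with
  | xl b =>
    have h1 : b = a := hu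
    subst h1
    exact ⟨by simp, by simp⟩
  | xh b =>
    have h1 : b = a := hu
    subst h1
    intro h2
    have := h2.2
    simp at this
  | ll j B hB => exact ⟨hu.1.trans hB, (Nat.le_succ _).trans hu.2⟩
  | lz j B hB =>
    intro h1
    have h2 : B + 1 ≤ a / n ^ j := hu.2
    omega
  | lu j B hB =>
    refine ⟨?_, hu.1.ge⟩
    rw [div_pow_succ, hu.1]
  | lh j B hB =>
    intro h1
    have h2 : B / n < a / n ^ (j + 1) := h1.2
    rw [hu.1] at h2
    exact lt_irrefl _ h2
  | hh j B hB =>
    intro h1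
    exact hu ⟨h1.1.trans hB, (Nat.lt_succ_self _).trans h1.2⟩
  | hz j B hB =>
    intro h1
    refine hu ⟨?_, ?_⟩
    · rw [div_pow_succ, h1, hB]
    · rw [h1]; exact Nat.lt_succ_self _
  | zz j B hB =>
    intro h1
    apply hu
    rw [div_pow_succ, h1]
  | zh j B hB =>
    intro h1
    exact hu h1.1

theorem up_le (a : ℕ) (u v : V) (h : Relation.ReflTransGen (EE k n) u v) (hu : Up n a u) :
    Up n a v := by
  induction h with
  | refl => exact hu
  | tail _ h ih => exact up_E a _ _ h.1 ih

theorem ok_block {a j B : ℕ} (ha : a < n ^ k) (hj : j < k) (hn : 0 < n)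
    (h : a / n ^ (j + 1) = B / n) : j < k ∧ B < n ^ (k - j) := by
  refine ⟨hj, ?_⟩
  have h1 : a / n ^ (j + 1) < n ^ (k - j - 1) := by
    rw [Nat.div_lt_iff_lt_mul (Nat.pow_pos hn), ← pow_add]
    rwa [show k - j - 1 + (j + 1) = k by omega]
  rw [h, Nat.div_lt_iff_lt_mul hn, ← pow_succ] at h1
  rwa [show k - j - 1 + 1 = k - j by omega] at h1

/-- monotone rails -/
theorem railH (j : ℕ) {a : ℕ} (ha : a < n ^ k) (hj : j < k) (hn : 0 < n) :
    ∀ (t B : ℕ), a / n ^ (j + 1) = B / n → a / n ^ (j + 1) = (B + t) / n →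
      Relation.ReflTransGen (EE k n) (H j B) (H j (B + t)) := by
  intro t
  induction t with
  | zero => intro B _ _; exact Relation.ReflTransGen.refl
  | succ t ih =>
    intro B h1 h2
    have h3 : a / n ^ (j + 1) = (B + t) / n := by
      apply le_antisymm
      · rw [h1]; exact Nat.div_le_div_right (Nat.le_add_right _ _)
      · rw [h2]; exact Nat.div_le_div_right (by omega)
    refine Relation.ReflTransGen.tail (ih B h1 h3) ⟨?_, ok_block ha hj hn h3, ok_block ha hj hn h2⟩
    exact E.hh j (B + t) (h2.symm.trans h3)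

/-- antitone rails -/
theorem railL (j : ℕ) {a : ℕ} (ha : a < n ^ k) (hj : j < k) (hn : 0 < n) :
    ∀ (t B : ℕ), a / n ^ (j + 1) = B / n → a / n ^ (j + 1) = (B + t) / n →
      Relation.ReflTransGen (EE k n) (L j (B + t)) (L j B) := by
  intro t
  induction t with
  | zero => intro B _ _; exact Relation.ReflTransGen.refl
  | succ t ih =>
    intro B h1 h2
    have h3 : a / n ^ (j + 1) = (B + t) / n := by
      apply le_antisymm
      · rw [h1]; exact Nat.div_le_div_right (Nat.le_add_right _ _)
      · rw [h2]; exact Nat.div_le_div_right (by omega)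
    have h4 : EE k n (L j (B + t + 1)) (L j (B + t)) :=
      ⟨E.ll j (B + t) (h2.symm.trans h3), ok_block ha hj hn h2, ok_block ha hj hn h3⟩
    exact Relation.ReflTransGen.head h4 (ih B h1 h3)

/-- data of the first block of a superblock -/
theorem first_block (hn : 0 < n) (p : ℕ) : (p / n * n) / n = p / n ∧ (p / n * n) % n = 0 ∧
    p / n * n + p % n = p :=
  ⟨Nat.mul_div_cancel _ hn, Nat.mul_mod_left _ _, Nat.div_add_mod' p n⟩

/-- from `L j` of the block of `a` to the first `L j` of the superblock -/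
theorem toFirst {a : ℕ} (ha : a < n ^ k) (hn : 0 < n) (j : ℕ) (hj : j < k) :
    Relation.ReflTransGen (EE k n) (L j (a / n ^ j)) (L j (a / n ^ (j + 1) * n)) := by
  have hqp := div_pow_succ (n := n) a j
  obtain ⟨h4, h5, h3⟩ := first_block hn (a / n ^ j)
  rw [← hqp] at h4 h5 h3
  have h7 := railL (k := k) j ha hj hn (a / n ^ j % n)
    (a / n ^ (j + 1) * n) h4.symm (by rw [h3]; exact hqp)
  rwa [h3] at h7

theorem climbL {a : ℕ} (ha : a < n ^ k) (hn : 0 < n) : ∀ j, j < k →
    Relation.ReflTransGen (EE k n) (X a) (L j (a / n ^ j)) := by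
  intro j
  induction j with
  | zero =>
    intro hk
    rw [pow_zero, Nat.div_one]
    exact Relation.ReflTransGen.single ⟨E.xl a, ha, ok_block ha hk hn (by simp)⟩
  | succ j ih =>
    intro hj
    have hj' : j < k := by omega
    obtain ⟨h4, h5, -⟩ := first_block hn (a / n ^ j)
    rw [← div_pow_succ (n := n) a j] at h4 h5
    refine ((ih hj').trans (toFirst ha hn j hj')).tail
      ⟨?_, ok_block ha hj' hn h4.symm, ok_block ha hj hn (div_pow_succ a (j + 1))⟩
    have h7 := E.lu (n := n) j _ h5
    rwa [h4] at h7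

theorem climbH {a : ℕ} (ha : a < n ^ k) (hn : 0 < n) : ∀ j, j < k →
    Relation.ReflTransGen (EE k n) (X a) (H j (a / n ^ j)) := by
  intro j
  cases j with
  | zero =>
    intro hk
    rw [pow_zero, Nat.div_one]
    exact Relation.ReflTransGen.single ⟨E.xh a, ha, ok_block ha hk hn (by simp)⟩
  | succ j =>
    intro hj
    have hj' : j < k := by omega
    obtain ⟨h4, h5, -⟩ := first_block hn (a / n ^ j)
    rw [← div_pow_succ (n := n) a j] at h4 h5
    refine ((climbL ha hn j hj').trans (toFirst ha hn j hj')).tail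
      ⟨?_, ok_block ha hj' hn h4.symm, ok_block ha hj hn (div_pow_succ a (j + 1))⟩
    have h7 := E.lh (n := n) j _ h5
    rwa [h4] at h7

theorem descZ {a : ℕ} (ha : a < n ^ k) (hn : 0 < n) : ∀ j, j < k →
    Relation.ReflTransGen (EE k n) (Z j (a / n ^ j)) (Z 0 a) := by
  intro j
  induction j with
  | zero =>
    intro hk
    rw [pow_zero, Nat.div_one]
  | succ j ih =>
    intro hj
    have hj' : j < k := by omega
    have hqp := div_pow_succ (n := n) a j
    obtain ⟨h4, h5, h3⟩ := first_block hn (a / n ^ j)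
    rw [← hqp] at h4 h5 h3
    refine Relation.ReflTransGen.trans ?_ (ih hj')
    have ok1 := ok_block (k := k) ha hj hn (div_pow_succ a (j + 1))
    have ok2 := ok_block (k := k) ha hj' hn h4.symm
    rcases Nat.eq_zero_or_pos (a / n ^ j % n) with h6 | h6
    · have h7 := E.zz (n := n) j _ h5
      rw [h4] at h7
      rw [h6, Nat.add_zero] at h3
      have h8 : EE k n (Z (j + 1) (a / n ^ (j + 1))) (Z j (a / n ^ (j + 1) * n)) := ⟨h7, ok1, ok2⟩
      rw [h3] at h8
      exact Relation.ReflTransGen.single h8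
    · obtain ⟨t, ht⟩ : ∃ t, a / n ^ j % n = t + 1 := ⟨_, (Nat.sub_add_cancel h6).symm⟩
      have h7 := E.zh (n := n) j _ h5
      rw [h4] at h7
      have h8 : a / n ^ (j + 1) = (a / n ^ (j + 1) * n + t) / n := by
        apply le_antisymm
        · conv_lhs => rw [← h4]
          exact Nat.div_le_div_right (Nat.le_add_right _ _)
        · conv_rhs => rw [hqp]
          exact Nat.div_le_div_right (by omega)
      have h9 := railH (k := k) j ha hj' hn t (a / n ^ (j + 1) * n) h4.symm h8
      have h10 : a / n ^ (j + 1) * n + t + 1 = a / n ^ j := by omega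
      have h11 : (a / n ^ (j + 1) * n + t + 1) / n = (a / n ^ (j + 1) * n + t) / n := by
        rw [h10, ← h8, hqp]
      have h12 : EE k n (H j (a / n ^ (j + 1) * n + t)) (Z j (a / n ^ (j + 1) * n + t + 1)) :=
        ⟨E.hz j _ h11, ok_block ha hj' hn h8, ok_block ha hj' hn (h8.trans h11.symm)⟩
      rw [h10] at h12
      have h13 : EE k n (Z (j + 1) (a / n ^ (j + 1))) (H j (a / n ^ (j + 1) * n)) :=
        ⟨h7, ok1, ok2⟩
      exact Relation.ReflTransGen.head h13 (h9.tail h12)

theorem le_XY {a b : ℕ} (ha : a < n ^ k) (hb : b < n ^ k) (hab : a ≠ b) :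
    Relation.ReflTransGen (EE k n) (X a) (Z 0 b) := by
  have hn : 0 < n := by
    rcases Nat.eq_zero_or_pos n with h0 | h0
    · exfalso
      subst h0
      rcases Nat.eq_zero_or_pos k with h1 | h1
      · subst h1; simp at ha hb; omega
      · rw [Nat.zero_pow h1] at ha; omega
    · exact h0
  classical
  have hex : ∃ m, a / n ^ m = b / n ^ m := ⟨k, by rw [Nat.div_eq_of_lt ha, Nat.div_eq_of_lt hb]⟩
  obtain ⟨m, hm, hmin⟩ : ∃ m, a / n ^ m = b / n ^ m ∧ ∀ i < m, ¬ a / n ^ i = b / n ^ i :=
    ⟨Nat.find hex, Nat.find_spec hex, fun i hi => Nat.find_min hex hi⟩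
  have hm0 : m ≠ 0 := by
    rintro rfl
    simp at hm
    exact hab hm
  have hmk : m ≤ k := by
    by_contra h
    exact hmin k (by omega) (by rw [Nat.div_eq_of_lt ha, Nat.div_eq_of_lt hb])
  obtain ⟨j, rfl⟩ : ∃ j, m = j + 1 := ⟨m - 1, by omega⟩
  have hj : j < k := by omega
  have hne := hmin j (by omega)
  have e1 := div_pow_succ (n := n) a j
  have e2 := div_pow_succ (n := n) b j
  rcases Nat.lt_or_gt_of_ne hne with h | h
  · obtain ⟨t, ht⟩ : ∃ t, b / n ^ j = a / n ^ j + t + 1 := ⟨b / n ^ j - a / n ^ j - 1, by omega⟩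
    have h1 : a / n ^ (j + 1) = (a / n ^ j + t + 1) / n := by rw [hm, e2, ht]
    have h2 : a / n ^ (j + 1) = (a / n ^ j + t) / n := by
      apply le_antisymm
      · rw [e1]; exact Nat.div_le_div_right (Nat.le_add_right _ _)
      · rw [h1]; exact Nat.div_le_div_right (by omega)
    have h3 : EE k n (H j (a / n ^ j + t)) (Z j (a / n ^ j + t + 1)) :=
      ⟨E.hz j _ (h1.symm.trans h2), ok_block ha hj hn h2, ok_block ha hj hn h1⟩
    rw [← ht] at h3
    exact (((climbH ha hn j hj).trans (railH j ha hj hn t _ e1 h2)).tail h3).trans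
      (descZ hb hn j hj)
  · obtain ⟨t, ht⟩ : ∃ t, a / n ^ j = b / n ^ j + 1 + t := ⟨a / n ^ j - b / n ^ j - 1, by omega⟩
    have h1 : a / n ^ (j + 1) = (b / n ^ j) / n := by rw [hm, e2]
    have h2 : a / n ^ (j + 1) = (b / n ^ j + 1) / n := by
      apply le_antisymm
      · rw [h1]; exact Nat.div_le_div_right (Nat.le_add_right _ _)
      · rw [e1]; exact Nat.div_le_div_right (by omega)
    have h3 : Relation.ReflTransGen (EE k n) (L j (a / n ^ j)) (L j (b / n ^ j + 1)) := by
      have h4 := railL (k := k) j ha hj hn t (b / n ^ j + 1) h2 (by rw [← ht]; exact e1)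
      rwa [← ht] at h4
    have h5 : EE k n (L j (b / n ^ j + 1)) (Z j (b / n ^ j)) :=
      ⟨E.lz j _ (h2.symm.trans h1), ok_block ha hj hn h2, ok_block ha hj hn h1⟩
    exact (((climbL ha hn j hj).trans h3).tail h5).trans (descZ hb hn j hj)

theorem not_le_XY (a : ℕ) : ¬ Relation.ReflTransGen (EE k n) (X a) (Z 0 a) := by
  intro h
  have h1 : a / n ^ 0 ≠ a := up_le a _ _ h rfl
  simp at h1

theorem dim (hk : 1 ≤ k) (d : ℕ) (h : DimLE (Kel k n) d) : n ^ k ≤ d := by
  obtain ⟨f, hf⟩ := h
  let x : Fin (n ^ k) → Kel k n := fun a => ⟨X a, a.2⟩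
  let y : Fin (n ^ k) → Kel k n := fun a => ⟨Z 0 a, hk, a.2⟩
  have h1 : ∀ a, ∃ i, f (y a) i < f (x a) i := by
    intro a
    by_contra h
    push Not at h
    exact not_le_XY (k := k) (n := n) a ((hf (x a) (y a)).2 h)
  choose g hg using h1
  have h2 : Function.Injective g := by
    intro a b hab
    by_contra hne
    have hne' : (a : ℕ) ≠ b := fun h => hne (Fin.ext h)
    have h3 : x a ≤ y b := le_XY a.2 b.2 hne'
    have h4 : x b ≤ y a := le_XY b.2 a.2 hne'.symm
    have h5 : f (x a) (g a) ≤ f (y b) (g a) := (hf _ _).1 h3 (g a)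
    have h6 : f (x b) (g a) ≤ f (y a) (g a) := (hf _ _).1 h4 (g a)
    have h7 := hg a
    have h8 := hg b
    rw [← hab] at h8
    omega
  have := Fintype.card_le_of_injective g h2
  simpa using this

/-! ### degrees -/

open Classical in
/-- neighbours -/
noncomputable def nb (n : ℕ) : V → Finset V
  | X a => {L 0 a, H 0 a}
  | L j B => {L j (B + 1), if j = 0 then X B else L (j - 1) (B * n),
      if B % n = 0 then L (j + 1) (B / n) else L j (B - 1),
      if B % n = 0 then H (j + 1) (B / n) else Z j (B - 1)}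
  | H j B => {H j (B + 1), Z j (B + 1),
      if B % n = 0 then Z (j + 1) (B / n) else H j (B - 1),
      if j = 0 then X B else L (j - 1) (B * n)}
  | Z j B => {L j (B + 1), if B % n = 0 then Z (j + 1) (B / n) else H j (B - 1),
      Z (j - 1) (B * n), H (j - 1) (B * n)}

theorem nb_card (u : V) : (nb n u).card ≤ 4 := by
  classical
  cases u with
  | X a =>
    simp only [nb]
    exact Finset.card_le_two.trans (by omega)
  | Z j B =>
    simp only [nb]
    exact Finset.card_le_four
  | L j B =>
    simp only [nb]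
    exact Finset.card_le_four
  | H j B =>
    simp only [nb]
    exact Finset.card_le_four

theorem div_mul_first {B : ℕ} (h : B % n = 0) : B / n * n = B := by
  have h1 := Nat.div_add_mod' B n
  omega

/-- not last -/
theorem not_last {B : ℕ} (hn : 0 < n) (h : (B + 1) / n = B / n) : ¬ B % n + 1 = n := by
  have h1 := mod_succ h
  have h2 := Nat.mod_lt (B + 1) hn
  omega

/-- not first -/
theorem not_first {B : ℕ} (h : (B + 1) / n = B / n) : ¬ (B + 1) % n = 0 := by
  have h1 := mod_succ h
  omega

theorem nb_out (u v : V) (h : EE k n u v) : v ∈ nb n u := by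
  obtain ⟨hE, hu, hv⟩ := h
  cases hE with
  | xl a => simp [nb]
  | xh a => simp [nb]
  | ll j B hB => simp [nb, not_first hB]
  | lz j B hB => simp [nb, not_first hB]
  | lu j B hB => simp [nb, hB]
  | lh j B hB => simp [nb, hB]
  | hh j B hB => simp [nb]
  | hz j B hB => simp [nb]
  | zz j B hB => simp [nb, div_mul_first hB]
  | zh j B hB => simp [nb, div_mul_first hB]

theorem nb_in (u v : V) (h : EE k n u v) : u ∈ nb n v := by
  obtain ⟨hE, hu, hv⟩ := h
  cases hE with
  | xl a => simp [nb]
  | xh a => simp [nb]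
  | ll j B hB => simp [nb]
  | lz j B hB => simp [nb]
  | lu j B hB => simp [nb, div_mul_first hB]
  | lh j B hB => simp [nb, div_mul_first hB]
  | hh j B hB => simp [nb, not_first hB]
  | hz j B hB => simp [nb, not_first hB]
  | zz j B hB => simp [nb, hB]
  | zh j B hB => simp [nb, hB]

theorem degree : DegreeLE (cov (Kel k n)) 4 := by
  classical
  intro v
  refine ⟨Finset.univ.filter (fun u : Kel k n => u.1 ∈ nb n v.1), ?_, fun u hu => ?_⟩
  · refine le_trans ?_ (nb_card (n := n) v.1)
    apply Finset.card_le_card_of_injOn (fun u : Kel k n => u.1)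
    · intro u hu
      exact (Finset.mem_filter.1 (Finset.mem_coe.1 hu)).2
    · intro u _ w _ huw
      exact Subtype.ext huw
  · rw [Finset.mem_filter]
    refine ⟨Finset.mem_univ _, ?_⟩
    rcases adj_EE _ _ hu with h | h
    · exact nb_out _ _ h
    · exact nb_in _ _ h

end Kel

end Pool.Agent.Helper23.NS
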