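import Pool.Agent.Helper23.NS.Kelly

/-!
# Posets of large dimension with cover graph of maximum degree 4 and path-width `2 * k + 1`:
the path decomposition
-/

set_option autoImplicit false

namespace Pool.Agent.Helper23.NS

open Pool.Agent.Helper66.PD (cov HeightLE PathWidthLE DimLE DegreeLE)

namespace Kel

open V

variable {k n : ℕ}

/-- length of the interval of `L j B` -/
def wL (k n j B : ℕ) : ℕ := if B % n = 0 then 3 else (3 * k) * n ^ j + 1

/-- length of the interval of `H j B` -/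
def wH (k n j B : ℕ) : ℕ := if B % n + 1 = n then 2 else (3 * k) * n ^ j

/-- first bag of an element -/
def lo (k n : ℕ) : V → ℕ
  | X a => (3 * k) * a + 3 * k
  | Z j B => (3 * k) * (B * n ^ j) + (3 * (k - 1 - j) + 1)
  | L j B => (3 * k) * (B * n ^ j) + (3 * (k - 1 - j) + 3) - wL k n j B
  | H j B => (3 * k) * (B * n ^ j) + (3 * (k - 1 - j) + 1)

/-- last bag of an element -/
def hi (k n : ℕ) : V → ℕ
  | X a => (3 * k) * a + 3 * k
  | Z j B => (3 * k) * (B * n ^ j) + (3 * (k - 1 - j) + 1) + (if j = 0 then 1 else 3)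
  | L j B => (3 * k) * (B * n ^ j) + (3 * (k - 1 - j) + 3)
  | H j B => (3 * k) * (B * n ^ j) + (3 * (k - 1 - j) + 1) + wH k n j B

theorem lo_L {j B : ℕ} : lo k n (L j B) + wL k n j B =
    (3 * k) * (B * n ^ j) + (3 * (k - 1 - j) + 3) := by
  have h1 : wL k n j B ≤ (3 * k) * (B * n ^ j) + (3 * (k - 1 - j) + 3) := by
    by_cases h : B % n = 0
    · unfold wL
      rw [if_pos h]
      omega
    · have h2 : 0 < B := by
        rcases Nat.eq_zero_or_pos B with h0 | h0
        · exact absurd (by rw [h0]; exact Nat.zero_mod n) h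
        · exact h0
      have h4 : (3 * k) * n ^ j ≤ (3 * k) * (B * n ^ j) :=
        Nat.mul_le_mul_left _ (Nat.le_mul_of_pos_left _ h2)
      unfold wL
      rw [if_neg h]
      omega
  simp only [lo]
  omega

theorem wL_pos (j B : ℕ) : 1 ≤ wL k n j B := by
  unfold wL
  split_ifs <;> omega

theorem wL_le (j B : ℕ) (hk : 0 < k) (hn : 0 < n) : wL k n j B ≤ (3 * k) * n ^ j + 1 := by
  have h1 : (3 * 1) * 1 ≤ (3 * k) * n ^ j :=
    Nat.mul_le_mul (Nat.mul_le_mul_left _ hk) (Nat.pow_pos hn)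
  unfold wL
  split_ifs <;> omega

theorem lo_le_hi (u : V) : lo k n u ≤ hi k n u := by
  cases u with
  | X a => simp only [lo, hi]; omega
  | Z j B => simp only [lo, hi]; omega
  | H j B => simp only [lo, hi]; omega
  | L j B =>
    have := lo_L (k := k) (n := n) (j := j) (B := B)
    simp only [hi]
    omega

theorem wH_next {j B : ℕ} (h : (B + 1) / n = B / n) (hn : 0 < n) :
    wH k n j B = (3 * k) * n ^ j := by
  unfold wH
  rw [if_neg (not_last hn h)]

theorem wL_next {j B : ℕ} (h : (B + 1) / n = B / n) :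
    wL k n j (B + 1) = (3 * k) * n ^ j + 1 := by
  unfold wL
  rw [if_neg (not_first h)]

/-- the intervals of two elements meet -/
def Mt (k n : ℕ) (u v : V) : Prop := lo k n u ≤ hi k n v ∧ lo k n v ≤ hi k n u

theorem up_time {j B : ℕ} (hB : B % n = 0) : (3 * k) * (B / n * n ^ (j + 1)) =
    (3 * k) * (B * n ^ j) := by
  have h1 := div_mul_first hB
  conv_rhs => rw [← h1]
  ring

theorem next_time {j B : ℕ} : (3 * k) * ((B + 1) * n ^ j) =
    (3 * k) * (B * n ^ j) + (3 * k) * n ^ j := by ring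

/-- the intervals of the ends of an edge meet -/
theorem meet (u v : V) (h : EE k n u v) : Mt k n u v := by
  obtain ⟨hE, hu, hv⟩ := h
  cases hE with
  | xl a =>
    have hj := hv.1
    have h1 := lo_L (k := k) (n := n) (j := 0) (B := a)
    have h3 := wL_pos (k := k) (n := n) 0 a
    have h2 : (3 * k) * (a * n ^ 0) = (3 * k) * a := by ring
    rw [h2] at h1
    have h4 : hi k n (L 0 a) = (3 * k) * (a * n ^ 0) + (3 * (k - 1 - 0) + 3) := rfl
    rw [h2] at h4
    have h5 : lo k n (X a) = (3 * k) * a + 3 * k := rfl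
    have h6 : hi k n (X a) = (3 * k) * a + 3 * k := rfl
    unfold Mt
    omega
  | xh a =>
    have hj := hv.1
    have hn := n_pos hv
    have h2 : (3 * k) * (a * n ^ 0) = (3 * k) * a := by ring
    have h3 : 2 ≤ wH k n 0 a := by
      unfold wH
      split_ifs
      · exact le_rfl
      · rw [pow_zero]; omega
    have h4 : hi k n (H 0 a) = (3 * k) * (a * n ^ 0) + (3 * (k - 1 - 0) + 1) + wH k n 0 a := rfl
    have h7 : lo k n (H 0 a) = (3 * k) * (a * n ^ 0) + (3 * (k - 1 - 0) + 1) := rfl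
    rw [h2] at h4 h7
    have h5 : lo k n (X a) = (3 * k) * a + 3 * k := rfl
    have h6 : hi k n (X a) = (3 * k) * a + 3 * k := rfl
    unfold Mt
    omega
  | ll j B hB =>
    have h1 := lo_L (k := k) (n := n) (j := j) (B := B)
    have h2 := lo_L (k := k) (n := n) (j := j) (B := B + 1)
    rw [wL_next hB, next_time] at h2
    have h3 : hi k n (L j B) = (3 * k) * (B * n ^ j) + (3 * (k - 1 - j) + 3) := rfl
    have h4 : hi k n (L j (B + 1)) = (3 * k) * ((B + 1) * n ^ j) + (3 * (k - 1 - j) + 3) := rfl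
    rw [next_time] at h4
    unfold Mt
    omega
  | lz j B hB =>
    have h2 := lo_L (k := k) (n := n) (j := j) (B := B + 1)
    rw [wL_next hB, next_time] at h2
    have h4 : hi k n (L j (B + 1)) = (3 * k) * ((B + 1) * n ^ j) + (3 * (k - 1 - j) + 3) := rfl
    rw [next_time] at h4
    have h5 : lo k n (Z j B) = (3 * k) * (B * n ^ j) + (3 * (k - 1 - j) + 1) := rfl
    have h6 : (3 * k) * (B * n ^ j) + (3 * (k - 1 - j) + 1) + 1 ≤ hi k n (Z j B) := by
      simp only [hi]
      split_ifs <;> omega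
    unfold Mt
    omega
  | lu j B hB =>
    have hj := hv.1
    have h1 := lo_L (k := k) (n := n) (j := j) (B := B)
    have h2 := lo_L (k := k) (n := n) (j := j + 1) (B := B / n)
    rw [up_time hB] at h2
    have h3 : hi k n (L j B) = (3 * k) * (B * n ^ j) + (3 * (k - 1 - j) + 3) := rfl
    have h4 : hi k n (L (j + 1) (B / n)) =
      (3 * k) * (B / n * n ^ (j + 1)) + (3 * (k - 1 - (j + 1)) + 3) := rfl
    rw [up_time hB] at h4
    have h5 : wL k n j B = 3 := by unfold wL; rw [if_pos hB]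
    unfold Mt
    omega
  | lh j B hB =>
    have hj := hv.1
    have hn := n_pos hu
    have h1 := lo_L (k := k) (n := n) (j := j) (B := B)
    have h3 : hi k n (L j B) = (3 * k) * (B * n ^ j) + (3 * (k - 1 - j) + 3) := rfl
    have h4 : hi k n (H (j + 1) (B / n)) = (3 * k) * (B / n * n ^ (j + 1)) +
      (3 * (k - 1 - (j + 1)) + 1) + wH k n (j + 1) (B / n) := rfl
    have h6 : lo k n (H (j + 1) (B / n)) = (3 * k) * (B / n * n ^ (j + 1)) +
      (3 * (k - 1 - (j + 1)) + 1) := rfl
    rw [up_time hB] at h4 h6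
    have h5 : wL k n j B = 3 := by unfold wL; rw [if_pos hB]
    have h7 : 2 ≤ wH k n (j + 1) (B / n) := by
      have h8 : (3 * 1) * 1 ≤ (3 * k) * n ^ (j + 1) :=
        Nat.mul_le_mul (Nat.mul_le_mul_left _ (by omega)) (Nat.pow_pos hn)
      unfold wH
      split_ifs <;> omega
    unfold Mt
    omega
  | hh j B hB =>
    have hn := n_pos hu
    have h3 : lo k n (H j B) = (3 * k) * (B * n ^ j) + (3 * (k - 1 - j) + 1) := rfl
    have h4 : hi k n (H j B) = (3 * k) * (B * n ^ j) + (3 * (k - 1 - j) + 1) + wH k n j B := rfl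
    have h5 : lo k n (H j (B + 1)) = (3 * k) * ((B + 1) * n ^ j) + (3 * (k - 1 - j) + 1) := rfl
    have h6 : hi k n (H j (B + 1)) = (3 * k) * ((B + 1) * n ^ j) + (3 * (k - 1 - j) + 1) +
      wH k n j (B + 1) := rfl
    rw [next_time] at h5 h6
    rw [wH_next hB hn] at h4
    unfold Mt
    omega
  | hz j B hB =>
    have hn := n_pos hu
    have h3 : lo k n (H j B) = (3 * k) * (B * n ^ j) + (3 * (k - 1 - j) + 1) := rfl
    have h4 : hi k n (H j B) = (3 * k) * (B * n ^ j) + (3 * (k - 1 - j) + 1) + wH k n j B := rfl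
    have h5 : lo k n (Z j (B + 1)) = (3 * k) * ((B + 1) * n ^ j) + (3 * (k - 1 - j) + 1) := rfl
    have h6 := lo_le_hi (k := k) (n := n) (Z j (B + 1))
    rw [next_time] at h5
    rw [wH_next hB hn] at h4
    unfold Mt
    omega
  | zz j B hB =>
    have hj := hu.1
    have h3 : lo k n (Z j B) = (3 * k) * (B * n ^ j) + (3 * (k - 1 - j) + 1) := rfl
    have h4 := lo_le_hi (k := k) (n := n) (Z j B)
    have h5 : lo k n (Z (j + 1) (B / n)) = (3 * k) * (B / n * n ^ (j + 1)) +
      (3 * (k - 1 - (j + 1)) + 1) := rfl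
    have h6 : hi k n (Z (j + 1) (B / n)) = (3 * k) * (B / n * n ^ (j + 1)) +
      (3 * (k - 1 - (j + 1)) + 1) + 3 := rfl
    rw [up_time hB] at h5 h6
    unfold Mt
    omega
  | zh j B hB =>
    have hj := hu.1
    have h3 : lo k n (H j B) = (3 * k) * (B * n ^ j) + (3 * (k - 1 - j) + 1) := rfl
    have h4 := lo_le_hi (k := k) (n := n) (H j B)
    have h5 : lo k n (Z (j + 1) (B / n)) = (3 * k) * (B / n * n ^ (j + 1)) +
      (3 * (k - 1 - (j + 1)) + 1) := rfl
    have h6 : hi k n (Z (j + 1) (B / n)) = (3 * k) * (B / n * n ^ (j + 1)) +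
      (3 * (k - 1 - (j + 1)) + 1) + 3 := rfl
    rw [up_time hB] at h5 h6
    unfold Mt
    omega

/-! ### the number of elements in a bag -/

/-- the slot of an element at the time `t` -/
def slot (k n t : ℕ) : V → ℕ
  | X _ => 2 * k + 1
  | Z j B => if t = hi k n (Z j B) ∧ 1 ≤ j then 2 * k else 2 * k + 1
  | L j B => if t ≤ (3 * k) * (B * n ^ j) + (3 * (k - 1 - j) + 1) then k + j else 2 * k
  | H j B => if t = hi k n (H j B) ∧ B % n + 1 ≠ n then 2 * k else j

theorem slot_lt (t : ℕ) (u : V) (h : ok k n u) : slot k n t u < 2 * k + 2 := by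
  cases u with
  | X a => simp only [slot]; omega
  | Z j B => simp only [slot]; split_ifs <;> omega
  | L j B =>
    have := h.1
    simp only [slot]
    split_ifs <;> omega
  | H j B =>
    have := h.1
    simp only [slot]
    split_ifs <;> omega

/-- uniqueness of quotient and phase -/
theorem phase {D q q' p p' : ℕ} (hp : 1 ≤ p) (hp' : 1 ≤ p') (hD : p ≤ D) (hD' : p' ≤ D)
    (h : D * q + p = D * q' + p') : q = q' ∧ p = p' := by
  rcases lt_trichotomy q q' with h1 | h1 | h1
  · have h2 : D * (q + 1) ≤ D * q' := Nat.mul_le_mul_left _ h1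
    have h3 : D * (q + 1) = D * q + D := by ring
    omega
  · subst h1
    exact ⟨rfl, by omega⟩
  · have h2 : D * (q' + 1) ≤ D * q := Nat.mul_le_mul_left _ h1
    have h3 : D * (q' + 1) = D * q' + D := by ring
    omega

/-- the elements of the last slot -/
theorem rep2 (t : ℕ) (u : V) (h : ok k n u) (h1 : lo k n u ≤ t) (h2 : t ≤ hi k n u)
    (h3 : slot k n t u = 2 * k + 1) :
    (∃ a, u = X a ∧ t = (3 * k) * a + 3 * k) ∨
    (∃ j B p, u = Z j B ∧ j < k ∧ p ≤ 2 ∧ (j = 0 → p ≤ 1) ∧
      t = (3 * k) * (B * n ^ j) + (3 * (k - 1 - j) + 1 + p)) := by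
  cases u with
  | X a =>
    left
    simp only [lo, hi] at h1 h2
    exact ⟨a, rfl, by omega⟩
  | Z j B =>
    right
    have hj := h.1
    have h4 : ¬ (t = hi k n (Z j B) ∧ 1 ≤ j) := by
      intro h5
      simp only [slot, if_pos h5] at h3
      omega
    have h5 : lo k n (Z j B) = (3 * k) * (B * n ^ j) + (3 * (k - 1 - j) + 1) := rfl
    refine ⟨j, B, t - lo k n (Z j B), rfl, hj, ?_, ?_, by omega⟩
    · rcases Nat.eq_zero_or_pos j with hj0 | hj0
      · subst hj0
        have h6 : hi k n (Z 0 B) = (3 * k) * (B * n ^ 0) + (3 * (k - 1 - 0) + 1) + 1 := rfl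
        omega
      · have h6 : hi k n (Z j B) = (3 * k) * (B * n ^ j) + (3 * (k - 1 - j) + 1) + 3 := by
          simp only [hi]
          rw [if_neg (by omega)]
        have h7 : t ≠ hi k n (Z j B) := fun h8 => h4 ⟨h8, hj0⟩
        omega
    · intro hj0
      subst hj0
      have h6 : hi k n (Z 0 B) = (3 * k) * (B * n ^ 0) + (3 * (k - 1 - 0) + 1) + 1 := rfl
      omega
  | L j B =>
    have hj := h.1
    simp only [slot] at h3
    split_ifs at h3 <;> omega
  | H j B =>
    have hj := h.1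
    simp only [slot] at h3
    split_ifs at h3 <;> omega

/-- the elements of the last but one slot -/
theorem rep1 (t : ℕ) (u : V) (h : ok k n u) (h1 : lo k n u ≤ t) (h2 : t ≤ hi k n u)
    (h3 : slot k n t u = 2 * k) :
    (∃ j B, u = H j B ∧ j < k ∧ B % n + 1 ≠ n ∧
      t = (3 * k) * ((B + 1) * n ^ j) + (3 * (k - 1 - j) + 1)) ∨
    (∃ j B, u = Z (j + 1) B ∧ j + 1 < k ∧
      t = (3 * k) * (B * n ^ (j + 1)) + (3 * (k - 1 - j) + 1)) ∨
    (∃ j B p, u = L j B ∧ j < k ∧ (p = 2 ∨ p = 3) ∧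
      t = (3 * k) * (B * n ^ j) + (3 * (k - 1 - j) + p)) := by
  cases u with
  | X a =>
    simp only [slot] at h3
    omega
  | Z j B =>
    right
    left
    have hj := h.1
    have h4 : t = hi k n (Z j B) ∧ 1 ≤ j := by
      by_contra h5
      simp only [slot, if_neg h5] at h3
      omega
    obtain ⟨h5, h6⟩ := h4
    obtain ⟨i, rfl⟩ : ∃ i, j = i + 1 := ⟨j - 1, by omega⟩
    refine ⟨i, B, rfl, hj, ?_⟩
    rw [h5]
    have h7 : hi k n (Z (i + 1) B) =
      (3 * k) * (B * n ^ (i + 1)) + (3 * (k - 1 - (i + 1)) + 1) + 3 := rfl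
    omega
  | L j B =>
    right
    right
    have hj := h.1
    have h4 : ¬ t ≤ (3 * k) * (B * n ^ j) + (3 * (k - 1 - j) + 1) := by
      intro h5
      simp only [slot, if_pos h5] at h3
      omega
    have h5 : hi k n (L j B) = (3 * k) * (B * n ^ j) + (3 * (k - 1 - j) + 3) := rfl
    refine ⟨j, B, t - ((3 * k) * (B * n ^ j) + 3 * (k - 1 - j)), rfl, hj, ?_, ?_⟩ <;> omega
  | H j B =>
    left
    have hj := h.1
    have h4 : t = hi k n (H j B) ∧ B % n + 1 ≠ n := by
      by_contra h5
      simp only [slot, if_neg h5] at h3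
      omega
    obtain ⟨h5, h6⟩ := h4
    refine ⟨j, B, rfl, hj, h6, ?_⟩
    have h7 : hi k n (H j B) = (3 * k) * (B * n ^ j) + (3 * (k - 1 - j) + 1) + wH k n j B := rfl
    have h8 : wH k n j B = (3 * k) * n ^ j := by unfold wH; rw [if_neg h6]
    rw [next_time, h5, h7, h8]
    omega

theorem last_of_mul {B C : ℕ} (hn : 0 < n) (h : B + 1 = C * n) : B % n + 1 = n := by
  obtain ⟨m, rfl⟩ : ∃ m, C = m + 1 := by
    rcases Nat.eq_zero_or_pos C with h0 | h0
    · subst h0; omega
    · exact ⟨C - 1, by omega⟩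
  have h1 : B = (n - 1) + n * m := by
    have h2 : (m + 1) * n = n * m + n := by ring
    omega
  rw [h1, Nat.add_mul_mod_self_left, Nat.mod_eq_of_lt (by omega)]
  omega

theorem inj2 (t : ℕ) (u v : V) (hu : ok k n u) (hv : ok k n v) (hn : 0 < n)
    (h1 : lo k n u ≤ t) (h2 : t ≤ hi k n u) (h3 : lo k n v ≤ t) (h4 : t ≤ hi k n v)
    (h5 : slot k n t u = 2 * k + 1) (h6 : slot k n t v = 2 * k + 1) (hk : 0 < k) : u = v := by
  rcases rep2 t u hu h1 h2 h5 with ⟨a, rfl, ha⟩ | ⟨j, B, p, rfl, hj, hp, hp0, ha⟩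
  · rcases rep2 t v hv h3 h4 h6 with ⟨b, rfl, hb⟩ | ⟨i, C, q, rfl, hi', hq, hq0, hb⟩
    · obtain ⟨c1, -⟩ := phase (by omega) (by omega) (by omega) (by omega) (ha.symm.trans hb)
      rw [c1]
    · obtain ⟨-, c2⟩ := phase (by omega) (by omega) (by omega) (by omega) (ha.symm.trans hb)
      exfalso
      rcases Nat.eq_zero_or_pos i with hi0 | hi0
      · have := hq0 hi0
        omega
      · omega
  · rcases rep2 t v hv h3 h4 h6 with ⟨b, rfl, hb⟩ | ⟨i, C, q, rfl, hi', hq, hq0, hb⟩
    · obtain ⟨-, c2⟩ := phase (by omega) (by omega) (by omega) (by omega) (ha.symm.trans hb)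
      exfalso
      rcases Nat.eq_zero_or_pos j with hj0 | hj0
      · have := hp0 hj0
        omega
      · omega
    · obtain ⟨c1, c2⟩ := phase (by omega) (by omega) (by omega) (by omega) (ha.symm.trans hb)
      obtain rfl : j = i := by omega
      rw [Nat.eq_of_mul_eq_mul_right (Nat.pow_pos hn) c1]

theorem inj1 (t : ℕ) (u v : V) (hu : ok k n u) (hv : ok k n v) (hn : 0 < n)
    (h1 : lo k n u ≤ t) (h2 : t ≤ hi k n u) (h3 : lo k n v ≤ t) (h4 : t ≤ hi k n v)
    (h5 : slot k n t u = 2 * k) (h6 : slot k n t v = 2 * k) : u = v := by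
  have hHZ : ∀ B C j : ℕ, B % n + 1 ≠ n → (B + 1) * n ^ j = C * n ^ (j + 1) → False := by
    intro B C j h7 h8
    apply h7
    apply last_of_mul (C := C) hn
    have h9 : (B + 1) * n ^ j = (C * n) * n ^ j := by rw [h8]; ring
    exact Nat.eq_of_mul_eq_mul_right (Nat.pow_pos hn) h9
  rcases rep1 t u hu h1 h2 h5 with ⟨j, B, rfl, hj, hB, ha⟩ | ⟨j, B, rfl, hj, ha⟩ |
    ⟨j, B, p, rfl, hj, hp, ha⟩
  · rcases rep1 t v hv h3 h4 h6 with ⟨i, C, rfl, hi', hC, hb⟩ | ⟨i, C, rfl, hi', hb⟩ |
      ⟨i, C, q, rfl, hi', hq, hb⟩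
    · obtain ⟨c1, c2⟩ := phase (by omega) (by omega) (by omega) (by omega) (ha.symm.trans hb)
      obtain rfl : j = i := by omega
      have c3 := Nat.eq_of_mul_eq_mul_right (Nat.pow_pos hn) c1
      rw [show B = C by omega]
    · obtain ⟨c1, c2⟩ := phase (by omega) (by omega) (by omega) (by omega) (ha.symm.trans hb)
      obtain rfl : j = i := by omega
      exact (hHZ B C j hB c1).elim
    · obtain ⟨c1, c2⟩ := phase (by omega) (by omega) (by omega) (by omega) (ha.symm.trans hb)
      omega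
  · rcases rep1 t v hv h3 h4 h6 with ⟨i, C, rfl, hi', hC, hb⟩ | ⟨i, C, rfl, hi', hb⟩ |
      ⟨i, C, q, rfl, hi', hq, hb⟩
    · obtain ⟨c1, c2⟩ := phase (by omega) (by omega) (by omega) (by omega) (ha.symm.trans hb)
      obtain rfl : j = i := by omega
      exact (hHZ C B j hC c1.symm).elim
    · obtain ⟨c1, c2⟩ := phase (by omega) (by omega) (by omega) (by omega) (ha.symm.trans hb)
      obtain rfl : j = i := by omega
      rw [Nat.eq_of_mul_eq_mul_right (Nat.pow_pos hn) c1]
    · obtain ⟨c1, c2⟩ := phase (by omega) (by omega) (by omega) (by omega) (ha.symm.trans hb)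
      omega
  · rcases rep1 t v hv h3 h4 h6 with ⟨i, C, rfl, hi', hC, hb⟩ | ⟨i, C, rfl, hi', hb⟩ |
      ⟨i, C, q, rfl, hi', hq, hb⟩
    · obtain ⟨c1, c2⟩ := phase (by omega) (by omega) (by omega) (by omega) (ha.symm.trans hb)
      omega
    · obtain ⟨c1, c2⟩ := phase (by omega) (by omega) (by omega) (by omega) (ha.symm.trans hb)
      omega
    · obtain ⟨c1, c2⟩ := phase (by omega) (by omega) (by omega) (by omega) (ha.symm.trans hb)
      obtain rfl : j = i := by omega
      rw [Nat.eq_of_mul_eq_mul_right (Nat.pow_pos hn) c1]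

/-- blocks of a rail `H` which are alive, before the contact with the next one -/
theorem H_inj {t j B C : ℕ} (hk : 0 < k) (hn : 0 < n) (h1 : lo k n (H j C) ≤ t)
    (h2 : t ≤ hi k n (H j B)) (h3 : ¬ (t = hi k n (H j B) ∧ B % n + 1 ≠ n)) : C ≤ B := by
  by_contra hlt
  have e1 : lo k n (H j C) = (3 * k) * (C * n ^ j) + (3 * (k - 1 - j) + 1) := rfl
  have e2 : hi k n (H j B) = (3 * k) * (B * n ^ j) + (3 * (k - 1 - j) + 1) + wH k n j B := rfl
  have e4 : (B + 1) * n ^ j ≤ C * n ^ j := Nat.mul_le_mul_right _ (by omega)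
  have e5 : (3 * k) * ((B + 1) * n ^ j) ≤ (3 * k) * (C * n ^ j) := Nat.mul_le_mul_left _ e4
  rw [next_time] at e5
  have e6 : (3 * 1) * 1 ≤ (3 * k) * n ^ j :=
    Nat.mul_le_mul (Nat.mul_le_mul_left _ hk) (Nat.pow_pos hn)
  by_cases h4 : B % n + 1 = n
  · have e7 : wH k n j B = 2 := by unfold wH; rw [if_pos h4]
    omega
  · have e7 : wH k n j B = (3 * k) * n ^ j := by unfold wH; rw [if_neg h4]
    have e8 : t ≠ hi k n (H j B) := fun h => h3 ⟨h, h4⟩
    omega

/-- blocks of a rail `L` which are alive before the last two bags -/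
theorem L_inj {t j B C : ℕ} (hk : 0 < k) (hn : 0 < n) (h1 : lo k n (L j C) ≤ t)
    (h2 : t ≤ (3 * k) * (B * n ^ j) + (3 * (k - 1 - j) + 1)) : C ≤ B := by
  by_contra hlt
  have e1 := lo_L (k := k) (n := n) (j := j) (B := C)
  have e3 := wL_le (k := k) (n := n) j C hk hn
  have e4 : (B + 1) * n ^ j ≤ C * n ^ j := Nat.mul_le_mul_right _ (by omega)
  have e5 : (3 * k) * ((B + 1) * n ^ j) ≤ (3 * k) * (C * n ^ j) := Nat.mul_le_mul_left _ e4
  rw [next_time] at e5
  omega

/-- different elements of a bag have different slots -/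
theorem slot_inj (hk : 0 < k) (t : ℕ) (u v : V) (hu : ok k n u) (hv : ok k n v)
    (h1 : lo k n u ≤ t) (h2 : t ≤ hi k n u) (h3 : lo k n v ≤ t) (h4 : t ≤ hi k n v)
    (h : slot k n t u = slot k n t v) : u = v := by
  have hn : 0 < n := by
    cases u with
    | X a =>
      have ha : a < n ^ k := hu
      rcases Nat.eq_zero_or_pos n with h0 | h0
      · subst h0
        rw [Nat.zero_pow hk] at ha
        omega
      · exact h0
    | Z j B => exact n_pos hu
    | L j B => exact n_pos hu
    | H j B => exact n_pos hu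
  by_cases h5 : slot k n t u = 2 * k + 1
  · exact inj2 t u v hu hv hn h1 h2 h3 h4 h5 (h ▸ h5) hk
  by_cases h6 : slot k n t u = 2 * k
  · exact inj1 t u v hu hv hn h1 h2 h3 h4 h6 (h ▸ h6)
  have h7 : slot k n t v ≠ 2 * k + 1 := h ▸ h5
  have h8 : slot k n t v ≠ 2 * k := h ▸ h6
  cases u with
  | X a => exact absurd rfl h5
  | Z i C =>
    simp only [slot] at h5 h6
    split_ifs at h5 h6 <;> omega
  | L i C =>
    have hi' := hu.1
    have g1 : t ≤ (3 * k) * (C * n ^ i) + (3 * (k - 1 - i) + 1) := by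
      by_contra g
      simp only [slot, if_neg g] at h6
      exact h6 trivial
    cases v with
    | X b => exact absurd rfl h7
    | Z j B =>
      simp only [slot] at h7 h8
      split_ifs at h7 h8 <;> omega
    | L j B =>
      have hj' := hv.1
      have g2 : t ≤ (3 * k) * (B * n ^ j) + (3 * (k - 1 - j) + 1) := by
        by_contra g
        simp only [slot, if_neg g] at h8
        exact h8 rfl
      simp only [slot, if_pos g1, if_pos g2] at h
      obtain rfl : i = j := by omega
      rw [le_antisymm (L_inj hk hn h1 g2) (L_inj hk hn h3 g1)]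
    | H j B =>
      have hj' := hv.1
      have g2 : ¬ (t = hi k n (H j B) ∧ B % n + 1 ≠ n) := by
        intro g
        simp only [slot, if_pos g] at h8
        exact h8 rfl
      simp only [slot, if_pos g1, if_neg g2] at h
      omega
  | H i C =>
    have hi' := hu.1
    have g1 : ¬ (t = hi k n (H i C) ∧ C % n + 1 ≠ n) := by
      intro g
      simp only [slot, if_pos g] at h6
      exact h6 trivial
    cases v with
    | X b => exact absurd rfl h7
    | Z j B =>
      simp only [slot] at h7 h8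
      split_ifs at h7 h8 <;> omega
    | L j B =>
      have hj' := hv.1
      have g2 : t ≤ (3 * k) * (B * n ^ j) + (3 * (k - 1 - j) + 1) := by
        by_contra g
        simp only [slot, if_neg g] at h8
        exact h8 rfl
      simp only [slot, if_neg g1, if_pos g2] at h
      omega
    | H j B =>
      have hj' := hv.1
      have g2 : ¬ (t = hi k n (H j B) ∧ B % n + 1 ≠ n) := by
        intro g
        simp only [slot, if_pos g] at h8
        exact h8 rfl
      simp only [slot, if_neg g1, if_neg g2] at h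
      obtain rfl : i = j := by omega
      rw [le_antisymm (H_inj hk hn h1 h4 g2) (H_inj hk hn h3 h2 g1)]

theorem path_width (hk : 0 < k) : PathWidthLE (cov (Kel k n)) (2 * k + 1) := by
  classical
  refine ⟨(Finset.univ.sup fun u : Kel k n => hi k n u.1) + 1,
    fun t => Finset.univ.filter (fun u : Kel k n => lo k n u.1 ≤ t ∧ (t : ℕ) ≤ hi k n u.1),
    ?_, ?_, ?_, ?_⟩
  · intro v
    have h1 : lo k n v.1 ≤ Finset.univ.sup fun u : Kel k n => hi k n u.1 :=
      (lo_le_hi v.1).trans
        (Finset.le_sup (f := fun u : Kel k n => hi k n u.1) (Finset.mem_univ v))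
    refine ⟨⟨lo k n v.1, Nat.lt_succ_of_le h1⟩, ?_⟩
    rw [Finset.mem_filter]
    exact ⟨Finset.mem_univ _, le_rfl, lo_le_hi v.1⟩
  · intro u v huv
    have hm : lo k n u.1 ≤ hi k n v.1 ∧ lo k n v.1 ≤ hi k n u.1 := by
      rcases adj_EE u v huv with h | h
      · exact meet _ _ h
      · exact (meet _ _ h).symm
    have hu := lo_le_hi (k := k) (n := n) u.1
    have hv := lo_le_hi (k := k) (n := n) v.1
    have h1 : max (lo k n u.1) (lo k n v.1) ≤ Finset.univ.sup fun u : Kel k n => hi k n u.1 :=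
      (max_le hu hm.2).trans
        (Finset.le_sup (f := fun u : Kel k n => hi k n u.1) (Finset.mem_univ u))
    refine ⟨⟨max (lo k n u.1) (lo k n v.1), Nat.lt_succ_of_le h1⟩, ?_, ?_⟩
    · rw [Finset.mem_filter]
      exact ⟨Finset.mem_univ _, le_max_left _ _, max_le hu hm.2⟩
    · rw [Finset.mem_filter]
      exact ⟨Finset.mem_univ _, le_max_right _ _, max_le hm.1 hv⟩
  · intro i j l v hij hjl hi' hl
    rw [Finset.mem_filter] at hi' hl ⊢
    have a1 : (i : ℕ) ≤ j := hij
    have a2 : (j : ℕ) ≤ l := hjl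
    exact ⟨Finset.mem_univ _, hi'.2.1.trans a1, a2.trans hl.2.2⟩
  · intro t
    have h1 : (Finset.univ.filter
        (fun u : Kel k n => lo k n u.1 ≤ t ∧ (t : ℕ) ≤ hi k n u.1)).card ≤
        (Finset.range (2 * k + 2)).card := by
      apply Finset.card_le_card_of_injOn (fun u : Kel k n => slot k n t u.1)
      · intro u _
        exact Finset.mem_coe.2 (Finset.mem_range.2 (slot_lt t u.1 u.2))
      · intro u hu v hv huv
        have hu' := (Finset.mem_filter.1 (Finset.mem_coe.1 hu)).2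
        have hv' := (Finset.mem_filter.1 (Finset.mem_coe.1 hv)).2
        exact Subtype.ext (slot_inj hk t u.1 v.1 u.2 v.2 hu'.1 hu'.2 hv'.1 hv'.2 huv)
    rwa [Finset.card_range] at h1

end Kel

/-- For all `k ≥ 1` and `n` there is a finite poset in which all chains have at most
`(2 * k - 1) * n + 1` elements, whose cover graph has path-width at most `2 * k + 1` and
maximum degree at most `4` and whose dimension is at least `n ^ k`. -/
theorem degree_four_sharp : ∀ k n : ℕ, 1 ≤ k → ∃ (P : Type) (_ : PartialOrder P) (_ : Fintype P),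
    HeightLE P ((2 * k - 1) * n + 1) ∧ PathWidthLE (cov P) (2 * k + 1) ∧
      DegreeLE (cov P) 4 ∧ ∀ d : ℕ, DimLE P d → n ^ k ≤ d :=
  fun k n hk => ⟨Kel k n, inferInstance, inferInstance, Kel.height hk, Kel.path_width hk,
    Kel.degree, Kel.dim hk⟩

end Pool.Agent.Helper23.NS
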